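import Pool.Agent.Run7.h228.MZ.B

/-! Piece ACL of MP_5076ba_lc. -/

set_option autoImplicit false

namespace Run7.h228.MZ
open FirstOrder FirstOrder.Language Run7.h520.MZ

/-- a formula or its negation, so that it holds for `s` -/
noncomputable def lit {α : Type} (s : α → M0) (ψ : LZ.Formula α) : LZ.Formula α := by
  classical
  exact if ψ.Realize s then ψ else ψ.not

theorem lit_iff {α : Type} (s t : α → M0) (ψ : LZ.Formula α) :
    (lit s ψ).Realize t ↔ (ψ.Realize s ↔ ψ.Realize t) := by
  classical
  unfold lit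
  by_cases h : ψ.Realize s
  · simp [h]
  · simp [h]

/-- `P` as a formula -/
def fP {α : Type} (i : α) : LZ.Formula α :=
  Relations.formula (L := LZ) (n := 1) Rel.P (fun _ => Term.var i)

theorem fP_iff {α : Type} (t : α → M0) (i : α) : (fP i).Realize t ↔ isP (t i) := by
  unfold fP
  rw [Formula.realize_rel]
  rfl

/-- `lc t c = 0` as a formula -/
noncomputable def fL {α : Type} (c : α →₀ ZMod 2) : LZ.Formula α :=
  Relations.formula (L := LZ) (n := c.support.card) (Rel.lin c.support.card)
    (fun i => Term.var ((c.support.equivFin.symm i : c.support) : α))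

theorem zmod2 (z : ZMod 2) (h : z ≠ 0) : z = 1 := by
  revert z; decide

theorem lc_eq {α : Type} (t : α → M0) (c : α →₀ ZMod 2) :
    lc t c = ∑ i ∈ c.support, val (t i) := by
  unfold lc
  rw [Finsupp.linearCombination_apply, Finsupp.sum]
  refine Finset.sum_congr rfl fun i hi => ?_
  rw [zmod2 (c i) (Finsupp.mem_support_iff.1 hi), one_smul]

theorem fL_iff {α : Type} (t : α → M0) (c : α →₀ ZMod 2) : (fL c).Realize t ↔ lc t c = 0 := by
  unfold fL
  rw [Formula.realize_rel, lc_eq]
  have h1 : ∑ i ∈ c.support, val (t i) =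
      ∑ i : Fin c.support.card, val (t ((c.support.equivFin.symm i : c.support) : α)) := by
    rw [← Finset.sum_coe_sort]
    exact (Equiv.sum_comp c.support.equivFin.symm
      (fun i : c.support => val (t (i : α)))).symm
  rw [h1]
  exact Iff.rfl

/-- the similarity class is definable -/
theorem exists_rho {α : Type} [Finite α] (s : α → M0) :
    ∃ ρ : LZ.Formula α, ∀ t : α → M0, ρ.Realize t ↔ Sim s t := by
  classical
  have : Finite (α →₀ ZMod 2) := by
    have : Fintype α := Fintype.ofFinite α
    exact Finite.of_injective (fun f : α →₀ ZMod 2 => (f : α → ZMod 2)) DFunLike.coe_injective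
  refine ⟨(Formula.iInf (fun i : α => lit s (fP i))) ⊓
    ((Formula.iInf (fun ij : α × α => lit s (Term.equal (Term.var ij.1) (Term.var ij.2)))) ⊓
    (Formula.iInf (fun c : α →₀ ZMod 2 => lit s (fL c)))), fun t => ?_⟩
  rw [Formula.realize_inf, Formula.realize_inf, Formula.realize_iInf, Formula.realize_iInf,
    Formula.realize_iInf]
  simp only [lit_iff, fP_iff, fL_iff, Formula.realize_equal, Term.realize_var]
  constructor
  · rintro ⟨h1, h2, h3⟩
    exact ⟨h1, fun i j => h2 (i, j), h3⟩
  · rintro ⟨h1, h2, h3⟩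
    exact ⟨h1, fun ij => h2 ij.1 ij.2, h3⟩

theorem acl : S_ACL := by
  intro hbas hforth hinv hdef A c
  constructor
  · rintro ⟨S, hS, hD, hc⟩
    obtain ⟨m, a, ha, h⟩ := hdef hbas hforth hinv A S hD
    exact ⟨m, a, ha, hS.subset fun y hy => (h c y hy).1 hc⟩
  · rintro ⟨m, a, ha, hfin⟩
    obtain ⟨ρ, hρ⟩ := exists_rho (Sum.elim a (fun _ : Unit => c))
    exact ⟨_, hfin, definable_of_formula a ρ ha (fun x => (hρ _).symm),
      (hbas.2.2.2 _ Empty _ (Sum.elim a (fun _ : Unit => c)) (Sum.elim a (fun _ : Unit => c))).1⟩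

end Run7.h228.MZ
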