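import Pool.Agent.Run7.h520.MZ.I

/-! Base lemmas for the pieces DEF, ACL, EX, SM of MP_5076ba_lc (Mazoyer's hypothesis). -/

set_option autoImplicit false

namespace Run7.h228.MZ
open FirstOrder FirstOrder.Language Run7.h520.MZ

theorem STp.comp {L : FirstOrder.Language.{0, 0}} {N N' : Type} [L.Structure N] [L.Structure N']
    {α β : Type} {s : α → N} {t : α → N'} (h : STp L s t) (g : β → α) :
    STp L (s ∘ g) (t ∘ g) := fun φ => by
  have := h (φ.relabel g)
  rwa [Formula.realize_relabel, Formula.realize_relabel] at this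

/-- a definable set in one variable, by a formula with finitely many parameters -/
theorem exists_formula {L : FirstOrder.Language.{0, 0}} {N : Type} [L.Structure N] {A D : Set N}
    (h : A.Definable₁ L D) : ∃ (m : ℕ) (a : Fin m → N) (φ : L.Formula (Fin m ⊕ Unit)),
      (∀ i, a i ∈ A) ∧ ∀ x : N, x ∈ D ↔ φ.Realize (Sum.elim a (fun _ : Unit => x)) := by
  classical
  obtain ⟨A0, hA0, h0⟩ := Set.definable_iff_finitely_definable.1 h
  obtain ⟨φ, hφ⟩ := Set.definable_iff_exists_formula_sum.1 h0
  let e : (A0 : Set N) ≃ Fin A0.card := A0.equivFin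
  refine ⟨A0.card, fun i => ((e.symm i : (A0 : Set N)) : N),
    φ.relabel (Sum.map e (fun _ => ())), fun i => hA0 (e.symm i).2, fun x => ?_⟩
  have h1 : x ∈ D ↔ (fun _ : Fin 1 => x) ∈ {x : Fin 1 → N | x 0 ∈ D} := Iff.rfl
  rw [h1, hφ, Formula.realize_relabel]
  have e1 : (Sum.elim (fun i => ((e.symm i : (A0 : Set N)) : N)) (fun _ : Unit => x)) ∘
      (Sum.map e (fun _ : Fin 1 => ())) = Sum.elim (fun a : (A0 : Set N) => (a : N))
        (fun _ : Fin 1 => x) := by
    funext i
    rcases i with i | i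
    · simp
    · simp
  rw [e1]
  rfl

/-- the formula with parameters defines a set -/
theorem definable_of_formula {L : FirstOrder.Language.{0, 0}} {N : Type} [L.Structure N]
    {A D : Set N} {m : ℕ} (a : Fin m → N) (φ : L.Formula (Fin m ⊕ Unit)) (ha : ∀ i, a i ∈ A)
    (hD : ∀ x : N, x ∈ D ↔ φ.Realize (Sum.elim a (fun _ : Unit => x))) :
    A.Definable₁ L D := by
  refine Set.definable_iff_exists_formula_sum.2
    ⟨φ.relabel (Sum.map (fun i => (⟨a i, ha i⟩ : A)) (fun _ => (0 : Fin 1))), ?_⟩
  ext v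
  have e1 : (Sum.elim (fun a : A => (a : N)) v) ∘
      (Sum.map (fun i => (⟨a i, ha i⟩ : A)) (fun _ : Unit => (0 : Fin 1))) =
      Sum.elim a (fun _ : Unit => v 0) := by
    funext i
    rcases i with i | i
    · simp
    · simp
  rw [Set.mem_ofPred_eq, Set.mem_ofPred_eq, Formula.realize_relabel]
  erw [e1]
  exact hD (v 0)

theorem lc_single {α : Type} (s : α → M0) (i : α) : lc s (Finsupp.single i 1) = val (s i) := by
  simp [lc]

theorem lc_zero {α : Type} (s : α → M0) : lc s 0 = 0 := by
  simp [lc]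

theorem val_P {x : M0} (h : isP x) : ∃ p : V, x = Sum.inl p := by
  rcases x with p | x
  · exact ⟨p, rfl⟩
  · exact h.elim

end Run7.h228.MZ
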