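import Pool.Agent.Run7.h228.MZ.B

/-! Piece DEF of MP_5076ba_lc. -/

set_option autoImplicit false

namespace Run7.h228.MZ
open FirstOrder FirstOrder.Language Run7.h520.MZ

theorem deff : S_DEF := by
  intro hbas hforth hinv A D hD
  obtain ⟨m, a, φ, ha, hφ⟩ := exists_formula hD
  refine ⟨m, a, ha, fun x y h => ?_⟩
  rw [hφ, hφ]
  exact hinv hbas hforth _ _ _ h φ

end Run7.h228.MZ
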