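import Pool.Agent.Run7.h228.MZ.B

/-! Piece EX of MP_5076ba_lc. -/

set_option autoImplicit false

namespace Run7.h228.MZ
open FirstOrder FirstOrder.Language Run7.h520.MZ

/-- basis vectors -/
noncomputable def e (i : ℕ) : V := Finsupp.single i 1

theorem e_ne (i : ℕ) : e i ≠ 0 := by
  unfold e
  simp

/-- the points of the example -/
noncomputable def xx (i : ℕ) : M0 := Sum.inr (⟨e i, e_ne i⟩, 0)

theorem val_xx (i : ℕ) : val (xx i) = (e i, 0) := rfl

theorem xx_inj : Function.Injective xx := by
  intro i j h
  have h1 : val (xx i) = val (xx j) := by rw [h]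
  rw [val_xx, val_xx] at h1
  have h2 : e i = e j := congrArg Prod.fst h1
  unfold e at h2
  rw [Finsupp.single_left_inj (by decide)] at h2
  exact h2

/-- a linear map that vanishes on the values vanishes on `lc` -/
theorem lc_map {α : Type} (s : α → M0) (f : V × ZMod 2 →ₗ[ZMod 2] ZMod 2)
    (h : ∀ i, f (val (s i)) = 0) (c : α →₀ ZMod 2) : f (lc s c) = 0 := by
  unfold lc
  rw [Finsupp.linearCombination_apply, Finsupp.sum, map_sum]
  refine Finset.sum_eq_zero fun i _ => ?_
  rw [map_smul, h, smul_zero]

/-- a functional separates -/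
theorem not_span {α : Type} (s : α → M0) (f : V × ZMod 2 →ₗ[ZMod 2] ZMod 2)
    (h : ∀ i, f (val (s i)) = 0) (x : M0) (hx : f (val x) ≠ 0) (c : α →₀ ZMod 2) :
    lc s c ≠ val x := fun e => hx (e ▸ lc_map s f h c)

/-- if a functional vanishes on `s` and not at a point `c` of `P`, then the points of `P` where it does
not vanish are similar to `c` -/
theorem sim_of_f {α : Type} [Finite α] (hover : S_OVER) (s : α → M0)
    (f : V × ZMod 2 →ₗ[ZMod 2] ZMod 2) (h : ∀ i, f (val (s i)) = 0) (x y : M0)
    (hx : isP x) (hy : isP y) (hfx : f (val x) ≠ 0) (hfy : f (val y) ≠ 0) :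
    Sim (Sum.elim s (fun _ : Unit => x)) (Sum.elim s (fun _ : Unit => y)) := by
  refine hover _ s x y (iff_of_true hx hy) (fun i => ⟨?_, ?_⟩)
    (Or.inr ⟨not_span s f h x hfx, not_span s f h y hfy⟩)
  · rintro rfl
    exact hfx (h i)
  · rintro rfl
    exact hfy (h i)

theorem lc_ones {α : Type} [Fintype α] (s : α → M0) :
    lc s (Finsupp.equivFunOnFinite.symm (fun _ => (1 : ZMod 2))) = ∑ i, val (s i) := by
  unfold lc
  rw [Finsupp.linearCombination_apply, Finsupp.sum_fintype _ (fun i (z : ZMod 2) => z • val (s i))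
    (fun i => zero_smul _ _)]
  exact Finset.sum_congr rfl fun i _ => by
    rw [Finsupp.equivFunOnFinite_symm_apply_apply, one_smul]

theorem sum_vals (n : ℕ) (p : V) (a : Fin (n + 2) → M0)
    (ha : ∀ i : Fin (n + 1), a (Fin.castSucc i) = xx i) (hl : val (a (Fin.last (n + 1))) = (0, 1))
    (x : M0) (hx : val x = (p, 1)) :
    ∑ i, val (Sum.elim a (fun _ : Unit => x) i) = ((∑ i ∈ Finset.range (n + 1), e i) + p, 0) := by
  rw [Fintype.sum_sum_type]
  simp only [Sum.elim_inl, Sum.elim_inr, Finset.univ_unique, Finset.sum_singleton]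
  rw [Fin.sum_univ_castSucc, hl, hx]
  simp only [ha, val_xx]
  rw [Finset.sum_range]
  have h3 : ∑ i : Fin (n + 1), (e (i : ℕ), (0 : ZMod 2)) = (∑ i : Fin (n + 1), e (i : ℕ), 0) := by
    ext1
    · rw [Prod.fst_sum]
    · rw [Prod.snd_sum]; simp
  rw [h3, Prod.mk_add_mk, Prod.mk_add_mk, add_zero, zero_add]
  have : (1 : ZMod 2) + 1 = 0 := by decide
  rw [this]

theorem ex : S_EX := by
  intro hbas hover hacl n
  refine ⟨xx '' {i | i ≤ n}, Sum.inl 0, Sum.inl (∑ i ∈ Finset.range (n + 1), e i), trivial, ?_, ?_, ?_⟩
  · -- `A` is algebraically closed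
    ext y
    rw [hacl]
    constructor
    · rintro ⟨m, a, ha, hfin⟩
      by_contra hy
      have hay : ∀ i, a i ≠ y := fun i h => hy (h ▸ ha i)
      rcases y with p | ⟨w, k⟩
      · -- `y` in `P`
        refine (Set.infinite_range_of_injective (f := fun p : V => (Sum.inl p : M0))
          Sum.inl_injective).mono ?_ hfin
        rintro _ ⟨q, rfl⟩
        refine sim_of_f hover a (LinearMap.snd (ZMod 2) V (ZMod 2)) (fun i => ?_) _ _ trivial trivial
          ?_ ?_
        · obtain ⟨j, -, hj⟩ := ha i
          rw [← hj, val_xx]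
          rfl
        · show (1 : ZMod 2) ≠ 0
          decide
        · show (1 : ZMod 2) ≠ 0
          decide
      · -- `y` in `X`
        have hinf : {k' : ℕ | ∀ i, a i ≠ Sum.inr (w, k')}.Infinite := by
          have h1 : {k' : ℕ | ∃ i, a i = Sum.inr (w, k')}.Finite := by
            have h2 : Function.Injective (fun k' : ℕ => (Sum.inr (w, k') : M0)) := by
              intro k1 k2 h
              exact (Prod.ext_iff.1 (Sum.inr_injective h)).2
            refine ((Set.finite_range a).preimage h2.injOn).subset ?_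
            rintro k' ⟨i, hi⟩
            exact ⟨i, hi⟩
          have h3 := h1.infinite_compl
          refine h3.mono ?_
          intro k' hk' i hi
          exact hk' ⟨i, hi⟩
        have h2 : Function.Injective (fun k' : ℕ => (Sum.inr (w, k') : M0)) := by
          intro k1 k2 h
          exact (Prod.ext_iff.1 (Sum.inr_injective h)).2
        refine (hinf.image h2.injOn).mono ?_ hfin
        rintro _ ⟨k', hk', rfl⟩
        exact hover _ a _ _ Iff.rfl (fun i => ⟨hay i, hk' i⟩) (Or.inl rfl)
    · intro hy
      refine ⟨1, fun _ => y, fun _ => hy, (Set.finite_singleton y).subset ?_⟩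
      intro y' h
      have := (h.eq (Sum.inl 0) (Sum.inr ())).1 rfl
      exact this.symm
  · rw [hacl]
    refine ⟨n + 2, Fin.snoc (α := fun _ => M0) (fun i : Fin (n + 1) => xx i) (Sum.inl 0), ?_, ?_⟩
    · intro i
      refine Fin.lastCases ?_ (fun i => ?_) i
      · rw [Fin.snoc_last]
        exact Or.inr rfl
      · rw [Fin.snoc_castSucc]
        exact Or.inl ⟨i, Nat.lt_succ_iff.1 i.2, rfl⟩
    · refine (Set.finite_singleton (Sum.inl (∑ i ∈ Finset.range (n + 1), e i) : M0)).subset ?_
      intro y h
      have h1 := (h.P (Sum.inr ())).1 trivial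
      obtain ⟨q, rfl⟩ := val_P (x := y) h1
      have h2 := h.lin (Finsupp.equivFunOnFinite.symm (fun _ => 1))
      have key : ∀ p : V, lc (Sum.elim (Fin.snoc (α := fun _ => M0) (fun i : Fin (n + 1) => xx i)
          (Sum.inl 0)) (fun _ : Unit => (Sum.inl p : M0)))
          (Finsupp.equivFunOnFinite.symm (fun _ => (1 : ZMod 2))) =
          ((∑ i ∈ Finset.range (n + 1), e i) + p, 0) := by
        intro p
        rw [lc_ones]
        exact sum_vals n p _ (fun i => by rw [Fin.snoc_castSucc]) (by rw [Fin.snoc_last]; rfl) _ rfl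
      rw [key, key] at h2
      have h4 : ∀ z : V, z + z = 0 := fun z => by
        rw [← two_smul (ZMod 2) z]
        have : (2 : ZMod 2) = 0 := by decide
        rw [this, zero_smul]
      have h5 := h2.1 (by rw [h4]; rfl)
      have h6 : (∑ i ∈ Finset.range (n + 1), e i) + q = 0 := congrArg Prod.fst h5
      have h7 : q = ∑ i ∈ Finset.range (n + 1), e i := by
        have h8 : (∑ i ∈ Finset.range (n + 1), e i) + ((∑ i ∈ Finset.range (n + 1), e i) + q) =
            (∑ i ∈ Finset.range (n + 1), e i) + 0 := by rw [h6]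
        rw [← add_assoc, h4, zero_add, add_zero] at h8
        exact h8
      rw [h7]
      rfl
  · intro A' hA' hfinA' hcard
    rw [hacl]
    rintro ⟨m, a, ha, hfin⟩
    -- an index not used
    obtain ⟨i0, hi0, hi0'⟩ : ∃ i0 ≤ n, xx i0 ∉ A' := by
      by_contra hcon
      push Not at hcon
      have h1 : xx '' {i | i ≤ n} ⊆ A' := by
        rintro _ ⟨i, hi, rfl⟩
        exact hcon i hi
      have h2 := Set.ncard_le_ncard h1 hfinA'
      rw [Set.ncard_image_of_injective _ xx_inj] at h2
      have h3 : {i : ℕ | i ≤ n}.ncard = n + 1 := by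
        have : {i : ℕ | i ≤ n} = ((Finset.range (n + 1) : Finset ℕ) : Set ℕ) := by
          ext i
          simp
        rw [this, Set.ncard_coe_finset, Finset.card_range]
      omega
    let f : V × ZMod 2 →ₗ[ZMod 2] ZMod 2 := (Finsupp.lapply i0) ∘ₗ (LinearMap.fst (ZMod 2) V (ZMod 2))
    have hf : ∀ i, f (val (a i)) = 0 := by
      intro i
      rcases ha i with h | h
      · obtain ⟨j, -, hj⟩ := hA' h
        have hne : j ≠ i0 := by
          rintro rfl
          rw [← hj] at h
          exact hi0' h
        rw [← hj, val_xx]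
        show (e j) i0 = 0
        unfold e
        rw [Finsupp.single_apply, if_neg hne]
      · have : a i = Sum.inl 0 := h
        rw [this]
        rfl
    have hfc : f (val (Sum.inl (∑ i ∈ Finset.range (n + 1), e i) : M0)) ≠ 0 := by
      show (∑ i ∈ Finset.range (n + 1), e i) i0 ≠ 0
      rw [Finsupp.finsetSum_apply]
      have : ∑ k ∈ Finset.range (n + 1), (e k) i0 = 1 := by
        rw [Finset.sum_eq_single i0]
        · unfold e; simp
        · intro b _ hb
          unfold e
          rw [Finsupp.single_apply, if_neg hb]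
        · intro h
          exact (h (Finset.mem_range.2 (Nat.lt_succ_iff.2 hi0))).elim
      rw [this]
      decide
    have hinf : (Set.range (fun k : ℕ => (Sum.inl (e i0 + (if k = i0 then 0 else e k)) : M0))).Infinite := by
      refine Set.infinite_range_of_injective ?_
      intro k1 k2 h
      have h1 := add_left_cancel (Sum.inl_injective h)
      by_cases h3 : k1 = i0
      · by_cases h4 : k2 = i0
        · rw [h3, h4]
        · simp only [h3, h4, if_true, if_false] at h1
          exact (e_ne _ h1.symm).elim
      · by_cases h4 : k2 = i0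
        · simp only [h3, h4, if_true, if_false] at h1
          exact (e_ne _ h1).elim
        · simp only [h3, h4, if_false] at h1
          unfold e at h1
          rwa [Finsupp.single_left_inj (by decide)] at h1
    refine hinf.mono ?_ hfin
    rintro _ ⟨k, rfl⟩
    refine sim_of_f hover a f hf _ _ trivial trivial hfc ?_
    show (e i0 + (if k = i0 then 0 else e k)) i0 ≠ 0
    by_cases h3 : k = i0
    · rw [if_pos h3, add_zero]
      unfold e
      rw [Finsupp.single_eq_same]
      decide
    · rw [if_neg h3, Finsupp.add_apply]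
      unfold e
      rw [Finsupp.single_eq_same, Finsupp.single_apply, if_neg h3, add_zero]
      decide

end Run7.h228.MZ
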