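import Pool.Agent.Run7.h228.MZ.B

/-! Piece SM of MP_5076ba_lc. -/

set_option autoImplicit false

namespace Run7.h228.MZ
open FirstOrder FirstOrder.Language Run7.h520.MZ

theorem inP_M0 (x : M0) : inP x ↔ isP x := Iff.rfl

theorem inP_map {N : Type} [LZ.Structure N] (j : M0 ↪ₑ[LZ] N) (x : M0) : inP (j x) ↔ isP x := by
  have h := j.toEmbedding.map_rel (n := 1) (r := (Rel.P : LZ.Relations 1)) ![x]
  have e : (j.toEmbedding ∘ ![x]) = ![j x] := by
    funext i
    fin_cases i
    rfl
  rw [e] at h
  exact h

theorem inf_P : {x : M0 | isP x}.Infinite := by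
  have : Infinite V := inferInstance
  refine (Set.infinite_range_of_injective (f := fun p : V => (Sum.inl p : M0))
    Sum.inl_injective).mono ?_
  rintro _ ⟨p, rfl⟩
  exact trivial

/-- the points of `P` in the span of a finite tuple are finitely many -/
theorem fin_span {α : Type} [Finite α] (s : α → M0) :
    {x : M0 | isP x ∧ ∃ c, lc s c = val x}.Finite := by
  have : Finite (α →₀ ZMod 2) := by
    have : Fintype α := Fintype.ofFinite α
    exact Finite.of_injective (fun f : α →₀ ZMod 2 => (f : α → ZMod 2)) DFunLike.coe_injective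
  refine (Set.finite_range (fun c : α →₀ ZMod 2 => (Sum.inl (lc s c).1 : M0))).subset ?_
  rintro x ⟨hx, c, hc⟩
  obtain ⟨p, rfl⟩ := val_P hx
  refine ⟨c, ?_⟩
  simp only [hc]
  rfl

/-- `P` is minimal in `M0` -/
theorem min0 (hbas : S_BAS) (hover : S_OVER) (hdef : S_DEF) (hforth : S_FORTH) (hinv : S_INV)
    (A D : Set M0) (hD : A.Definable₁ LZ D) :
    ({x : M0 | isP x} ∩ D).Finite ∨ ({x : M0 | isP x} \ D).Finite := by
  obtain ⟨m, a, -, h⟩ := hdef hbas hforth hinv A D hD
  by_cases hx : ∃ x : M0, isP x ∧ (∀ c, lc a c ≠ val x) ∧ x ∈ D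
  · obtain ⟨x, hx1, hx2, hx3⟩ := hx
    right
    refine (fin_span a).subset ?_
    rintro y ⟨hy1, hy2⟩
    refine ⟨hy1, ?_⟩
    by_contra hne
    push Not at hne
    refine hy2 ((h x y (hover _ a x y (iff_of_true hx1 hy1) (fun i => ⟨?_, ?_⟩)
      (Or.inr ⟨hx2, hne⟩))).1 hx3)
    · rintro rfl
      exact hx2 _ (lc_single a i)
    · rintro rfl
      exact hne _ (lc_single a i)
  · left
    refine (fin_span a).subset ?_
    rintro y ⟨hy1, hy2⟩
    refine ⟨hy1, ?_⟩
    by_contra hne
    push Not at hne
    exact hx ⟨y, hy1, hne, hy2⟩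

theorem sm : S_SM := by
  intro hbas hover hdef hforth hinv hls N _ _
  constructor
  · obtain ⟨j, -⟩ := hls N ∅ Set.countable_empty
    refine (inf_P.image j.injective.injOn).mono ?_
    rintro _ ⟨x, hx, rfl⟩
    exact (inP_map j x).2 hx
  · intro D hD
    by_contra hcon
    push Not at hcon
    obtain ⟨h1, h2⟩ := hcon
    have h1 : ({x : N | inP x} ∩ D).Infinite := h1
    have h2 : ({x : N | inP x} \ D).Infinite := h2
    obtain ⟨m, a, φ, -, hφ⟩ := exists_formula hD
    let f1 := h1.natEmbedding
    let f2 := h2.natEmbedding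
    obtain ⟨j, hj⟩ := hls N (Set.range a ∪ (Set.range (fun n => (f1 n : N)) ∪
      Set.range (fun n => (f2 n : N)))) ((Set.countable_range a).union
        ((Set.countable_range _).union (Set.countable_range _)))
    have ha : ∀ i, ∃ x, j x = a i := fun i => hj (Or.inl ⟨i, rfl⟩)
    have hf1 : ∀ n, ∃ x, j x = f1 n := fun n => hj (Or.inr (Or.inl ⟨n, rfl⟩))
    have hf2 : ∀ n, ∃ x, j x = f2 n := fun n => hj (Or.inr (Or.inr ⟨n, rfl⟩))
    choose a' ha' using ha
    choose g1 hg1 using hf1
    choose g2 hg2 using hf2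
    have hD' : (Set.univ : Set M0).Definable₁ LZ {x : M0 | j x ∈ D} := by
      refine definable_of_formula a' φ (fun _ => trivial) (fun x => ?_)
      have e : j ∘ (Sum.elim a' (fun _ : Unit => x)) = Sum.elim a (fun _ : Unit => j x) := by
        funext i
        rcases i with i | i
        · exact ha' i
        · rfl
      rw [← j.map_formula φ, e, ← hφ]
      exact Iff.rfl
    have hi1 : Function.Injective g1 := by
      intro n k hnk
      have : (f1 n : N) = f1 k := by rw [← hg1, ← hg1, hnk]
      exact f1.injective (Subtype.ext this)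
    have hi2 : Function.Injective g2 := by
      intro n k hnk
      have : (f2 n : N) = f2 k := by rw [← hg2, ← hg2, hnk]
      exact f2.injective (Subtype.ext this)
    rcases min0 hbas hover hdef hforth hinv _ _ hD' with h | h
    · refine (Set.infinite_range_of_injective hi1).mono ?_ h
      rintro _ ⟨n, rfl⟩
      have := (f1 n).2
      refine ⟨(inP_map j _).1 ?_, ?_⟩
      · rw [hg1]; exact this.1
      · show j (g1 n) ∈ D
        rw [hg1]; exact this.2
    · refine (Set.infinite_range_of_injective hi2).mono ?_ h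
      rintro _ ⟨n, rfl⟩
      have := (f2 n).2
      refine ⟨(inP_map j _).1 ?_, ?_⟩
      · rw [hg2]; exact this.1
      · show j (g2 n) ∉ D
        rw [hg2]; exact this.2

end Run7.h228.MZ
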